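import Pool.Agent.R295.Hopf.Witt

/-!
# MP_e2f694_an: non-isomorphic affine Hopf algebras with the same Arens-Michael envelope

Every submultiplicative seminorm on the enveloping algebra `U(W)` of the Witt algebra vanishes on
the augmentation ideal. Hence the Arens-Michael envelope of `U(W)` is `ℂ`, which is also the
Arens-Michael envelope of the Hopf algebra `ℂ`.
-/

set_option autoImplicit false

open scoped TensorProduct

namespace Pool.Agent.Results.MP_e2f694_an.SameEnvelope

/-- `B` is an Arens-Michael algebra: a complete Hausdorff topological algebra whose topology is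
given by a family of submultiplicative seminorms. -/
structure IsAM (B : Type) [Ring B] [Algebra ℂ B] [UniformSpace B] : Prop where
  uniformAddGroup : IsUniformAddGroup B
  complete : CompleteSpace B
  t2 : T2Space B
  seminorms : ∃ (I : Type) (_ : Nonempty I) (p : SeminormFamily ℂ B I),
    (∀ i a b, p i (a * b) ≤ p i a * p i b) ∧ WithSeminorms p

/-- `ι : A → B` is the Arens-Michael envelope of the algebra `A`: `B` is an Arens-Michael algebra,
and every homomorphism from `A` to an Arens-Michael algebra `C` factors uniquely through `ι` via a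
continuous homomorphism. -/
def IsEnvelope {A B : Type} [Ring A] [Algebra ℂ A] [Ring B] [Algebra ℂ B] [UniformSpace B]
    (ι : A →ₐ[ℂ] B) : Prop :=
  IsAM B ∧ ∀ (C : Type) [Ring C] [Algebra ℂ C] [UniformSpace C], IsAM C →
    ∀ f : A →ₐ[ℂ] C, ∃! g : B →ₐ[ℂ] C, Continuous g ∧ g.comp ι = f

/-- `T` is the completed projective tensor product of the Arens-Michael algebra `B` with itself,
with canonical maps `l x = x ⊗ 1`, `r y = 1 ⊗ y`: it is the universal Arens-Michael algebra with two
commuting continuous homomorphisms from `B`. -/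
def IsTensor {B T : Type} [Ring B] [Algebra ℂ B] [UniformSpace B] [Ring T] [Algebra ℂ T]
    [UniformSpace T] (l r : B →ₐ[ℂ] T) : Prop :=
  IsAM T ∧ Continuous l ∧ Continuous r ∧ (∀ x y, Commute (l x) (r y)) ∧
    ∀ (C : Type) [Ring C] [Algebra ℂ C] [UniformSpace C], IsAM C → ∀ f g : B →ₐ[ℂ] C,
      Continuous f → Continuous g → (∀ x y, Commute (f x) (g y)) →
      ∃! h : T →ₐ[ℂ] C, Continuous h ∧ h.comp l = f ∧ h.comp r = g

/-- `ι : H → B` is the Arens-Michael envelope of the Hopf algebra `H`, with its structure of a Hopf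
algebra with respect to the completed projective tensor product `T` of `B` with itself (`l`, `r`
are as in `IsTensor`): the comultiplication `Δ : B → T`, the counit `ε : B → ℂ` and the antipode
`S : B → B` are continuous and extend those of `H` (for the comultiplication: `Δ (ι h)` is the
image of the comultiplication of `h` under `ι ⊗ ι : a ⊗ b ↦ l (ι a) r (ι b)`). -/
structure IsHopfEnvelope {H B T : Type} [Ring H] [HopfAlgebra ℂ H] [Ring B] [Algebra ℂ B]
    [UniformSpace B] [Ring T] [Algebra ℂ T] [UniformSpace T] (ι : H →ₐ[ℂ] B) (l r Δ : B →ₐ[ℂ] T)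
    (ε : B →ₐ[ℂ] ℂ) (S : B →ₗ[ℂ] B) : Prop where
  env : IsEnvelope ι
  tensor : IsTensor l r
  continuous_comul : Continuous Δ
  continuous_counit : Continuous ε
  continuous_antipode : Continuous S
  comul : ∀ h : H, Δ (ι h) = LinearMap.mul' ℂ T (TensorProduct.map (l.comp ι).toLinearMap
    (r.comp ι).toLinearMap (Coalgebra.comul h))
  counit : ∀ h : H, ε (ι h) = Coalgebra.counit h
  antipode : ∀ h : H, S (ι h) = ι (HopfAlgebra.antipode ℂ h)

/-! ### `ℂ` is the envelope of Hopf algebras without non-trivial seminorms -/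

lemma isAM_complex : IsAM ℂ where
  uniformAddGroup := inferInstance
  complete := inferInstance
  t2 := inferInstance
  seminorms := ⟨Fin 1, inferInstance, fun _ => normSeminorm ℂ ℂ,
    fun _ a b => norm_mul_le a b, norm_withSeminorms ℂ ℂ⟩

lemma continuous_ofId (C : Type) [Ring C] [Algebra ℂ C] [UniformSpace C] (hC : IsAM C) :
    Continuous (Algebra.ofId ℂ C) := by
  obtain ⟨I, _, p, -, hp⟩ := hC.seminorms
  have := hC.uniformAddGroup
  have : IsTopologicalAddGroup C := inferInstance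
  have h1 : ContinuousSMul ℂ C := hp.continuousSMul
  have h2 : (fun z : ℂ => Algebra.ofId ℂ C z) = fun z => z • (1 : C) := by
    ext z
    rw [Algebra.ofId_apply, Algebra.algebraMap_eq_smul_one]
  change Continuous (fun z : ℂ => Algebra.ofId ℂ C z)
  rw [h2]
  exact continuous_id.smul continuous_const

lemma isEnvelope_counit {H : Type} [Ring H] [Algebra ℂ H] (ε : H →ₐ[ℂ] ℂ)
    (h : ∀ (C : Type) [Ring C] [Algebra ℂ C] [UniformSpace C], IsAM C → ∀ f : H →ₐ[ℂ] C,
      f = (Algebra.ofId ℂ C).comp ε) : IsEnvelope ε := by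
  refine ⟨isAM_complex, fun C _ _ _ hC f => ⟨Algebra.ofId ℂ C, ⟨continuous_ofId C hC, (h C hC f).symm⟩,
    fun g _ => Subsingleton.elim _ _⟩⟩

lemma isTensor_complex : IsTensor (AlgHom.id ℂ ℂ) (AlgHom.id ℂ ℂ) := by
  refine ⟨isAM_complex, continuous_id, continuous_id, fun x y => Commute.all _ _,
    fun C _ _ _ hC f g _ _ _ => ⟨Algebra.ofId ℂ C, ⟨continuous_ofId C hC, Subsingleton.elim _ _,
      Subsingleton.elim _ _⟩, fun h _ => Subsingleton.elim _ _⟩⟩

lemma isHopfEnvelope_counit {H : Type} [Ring H] [HopfAlgebra ℂ H]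
    (h : ∀ (C : Type) [Ring C] [Algebra ℂ C] [UniformSpace C], IsAM C → ∀ f : H →ₐ[ℂ] C,
      f = (Algebra.ofId ℂ C).comp (Bialgebra.counitAlgHom ℂ H)) :
    IsHopfEnvelope (Bialgebra.counitAlgHom ℂ H) (AlgHom.id ℂ ℂ) (AlgHom.id ℂ ℂ) (AlgHom.id ℂ ℂ)
      (AlgHom.id ℂ ℂ) LinearMap.id where
  env := isEnvelope_counit _ h
  tensor := isTensor_complex
  continuous_comul := continuous_id
  continuous_counit := continuous_id
  continuous_antipode := continuous_id
  comul a := by
    have h1 : TensorProduct.map ((AlgHom.id ℂ ℂ).comp (Bialgebra.counitAlgHom ℂ H)).toLinearMap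
        ((AlgHom.id ℂ ℂ).comp (Bialgebra.counitAlgHom ℂ H)).toLinearMap =
        ((Coalgebra.counit (R := ℂ) (A := H)).lTensor ℂ) ∘ₗ
          ((Coalgebra.counit (R := ℂ) (A := H)).rTensor H) := by
      apply TensorProduct.ext'
      intro x y
      rfl
    rw [h1, LinearMap.comp_apply, Coalgebra.rTensor_counit_comul, LinearMap.lTensor_tmul,
      LinearMap.mul'_apply, one_mul]
    rfl
  counit a := rfl
  antipode a := (HopfAlgebra.counit_antipode (R := ℂ) a).symm

open Pool.Agent.R295.Hopf in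
lemma hom_UW (C : Type) [Ring C] [Algebra ℂ C] [UniformSpace C] (hC : IsAM C) (f : UW →ₐ[ℂ] C) :
    f = (Algebra.ofId ℂ C).comp (counitHom ℂ W) := by
  obtain ⟨I, hI, p, hp, hps⟩ := hC.seminorms
  have := hC.t2
  have hf : ∀ x : W, f (j x) = 0 := by
    intro x
    by_contra hne
    obtain ⟨i, hi⟩ := hps.separating_of_T1 _ hne
    apply hi
    exact p_j ((p i).comp f.toLinearMap) (fun a b => by
      change p i (f (a * b)) ≤ _
      rw [map_mul]
      exact hp i _ _) x
  apply hom_ext'
  intro x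
  rw [AlgHom.comp_apply, counitHom_ι, map_zero]
  exact hf x

open Pool.Agent.R295.Hopf in
/-- There are two non-isomorphic affine Hopf algebras `H₁` and `H₂` (they are not even isomorphic
as algebras) with the same Arens-Michael envelope `(B, T, Δ, ε, S)`. -/
theorem result :
    ∃ (H₁ H₂ : Type) (_ : Ring H₁) (_ : HopfAlgebra ℂ H₁) (_ : Ring H₂) (_ : HopfAlgebra ℂ H₂),
      Algebra.FiniteType ℂ H₁ ∧ Algebra.FiniteType ℂ H₂ ∧ IsEmpty (H₁ ≃ₐ[ℂ] H₂) ∧
      ∃ (B T : Type) (_ : Ring B) (_ : Algebra ℂ B) (_ : UniformSpace B) (_ : Ring T)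
        (_ : Algebra ℂ T) (_ : UniformSpace T) (l r Δ : B →ₐ[ℂ] T) (ε : B →ₐ[ℂ] ℂ) (S : B →ₗ[ℂ] B)
        (ι₁ : H₁ →ₐ[ℂ] B) (ι₂ : H₂ →ₐ[ℂ] B),
        IsHopfEnvelope ι₁ l r Δ ε S ∧ IsHopfEnvelope ι₂ l r Δ ε S := by
  refine ⟨UW, ℂ, inferInstance, instHopfAlgebra ℂ _, inferInstance, inferInstance, finiteType_UW,
    inferInstance, ⟨fun φ => ?_⟩, ℂ, ℂ, inferInstance, inferInstance, inferInstance, inferInstance,
    inferInstance, inferInstance, AlgHom.id ℂ ℂ, AlgHom.id ℂ ℂ, AlgHom.id ℂ ℂ, AlgHom.id ℂ ℂ,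
    LinearMap.id, Bialgebra.counitAlgHom ℂ UW, Bialgebra.counitAlgHom ℂ ℂ,
    isHopfEnvelope_counit (fun C _ _ _ hC f => hom_UW C hC f),
    isHopfEnvelope_counit (fun C _ _ _ _ f => Subsingleton.elim _ _)⟩
  have h1 : (counitHom ℂ W).comp φ.symm.toAlgHom = AlgHom.id ℂ ℂ := Subsingleton.elim _ _
  have h2 : φ (j (w 0)) = 0 := by
    have h3 := congrArg (fun g : ℂ →ₐ[ℂ] ℂ => g (φ (j (w 0)))) h1
    simp only [AlgHom.comp_apply] at h3
    have h4 : φ.symm.toAlgHom (φ (j (w 0))) = j (w 0) := φ.symm_apply_apply _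
    rw [h4, counitHom_ι] at h3
    exact h3.symm
  exact j_w_ne_zero (φ.injective (by rw [h2, map_zero]))

end Pool.Agent.Results.MP_e2f694_an.SameEnvelope
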